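import Pool.Agent.Y215.CT.Stm

/-!
# Surjections onto a cyclic group of prime power order
-/

set_option autoImplicit false

namespace Pool.Agent.Y824.CT

/-- A finite abelian group has at least as many surjections onto a cyclic group of order `p ^ k` as
elements of order `p ^ k`. -/
theorem card_le (P : Type) [CommGroup P] [Finite P] (p k : ℕ) (hp : p.Prime) (hk : 0 < k) :
    Nat.card {c : P // c ^ p ^ k = 1 ∧ c ^ p ^ (k - 1) ≠ 1} ≤
      Nat.card {φ : P →* Multiplicative (ZMod (p ^ k)) // Function.Surjective φ} := by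
  classical
  have hpk : 0 < p ^ k := pow_pos hp.pos k
  have _ : NeZero (p ^ k) := ⟨hpk.ne'⟩
  have _ : Fact p.Prime := ⟨hp⟩
  have _ : NeZero (Monoid.exponent P) := ⟨Monoid.exponent_ne_zero_of_finite⟩
  obtain ⟨d⟩ := CommGroup.monoidHom_mulEquiv_of_hasEnoughRootsOfUnity P ℂ
  -- the roots of unity
  have hcard : Nat.card (rootsOfUnity (p ^ k) ℂ) = Nat.card (Multiplicative (ZMod (p ^ k))) := by
    rw [HasEnoughRootsOfUnity.natCard_rootsOfUnity ℂ (p ^ k), Nat.card_eq_fintype_card,
      Fintype.card_multiplicative, ZMod.card]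
  have hcyc : IsCyclic (Multiplicative (ZMod (p ^ k))) := inferInstance
  let e : rootsOfUnity (p ^ k) ℂ ≃* Multiplicative (ZMod (p ^ k)) :=
    mulEquivOfCyclicCardEq hcard
  have hfin : Finite (P →* Multiplicative (ZMod (p ^ k))) :=
    Finite.of_injective (fun f => (f : P → Multiplicative (ZMod (p ^ k)))) DFunLike.coe_injective
  -- the characters
  have h1 : ∀ c : P, c ^ p ^ k = 1 → ∀ x : P, d.symm c x ∈ rootsOfUnity (p ^ k) ℂ := by
    intro c hc x
    rw [mem_rootsOfUnity, ← MonoidHom.pow_apply, ← map_pow, hc, map_one, MonoidHom.one_apply]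
  let F : ∀ c : P, c ^ p ^ k = 1 → (P →* Multiplicative (ZMod (p ^ k))) := fun c hc =>
    e.toMonoidHom.comp ((d.symm c).codRestrict (rootsOfUnity (p ^ k) ℂ) (h1 c hc))
  have h2 : ∀ (c : P) (hc : c ^ p ^ k = 1), c ^ p ^ (k - 1) ≠ 1 →
      Function.Surjective (F c hc) := by
    intro c hc hc'
    obtain ⟨x, hx⟩ : ∃ x : P, d.symm c x ^ p ^ (k - 1) ≠ 1 := by
      by_contra hcon
      push Not at hcon
      apply hc'
      apply d.symm.injective
      rw [map_pow, map_one]
      refine MonoidHom.ext fun x => ?_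
      rw [MonoidHom.pow_apply, hcon x, MonoidHom.one_apply]
    have h3 : F c hc x ^ p ^ (k - 1) ≠ 1 := by
      intro h
      apply hx
      have h4 : e (((d.symm c).codRestrict (rootsOfUnity (p ^ k) ℂ) (h1 c hc)) x ^ p ^ (k - 1)) =
          e 1 := by
        rw [map_pow, map_one]
        exact h
      have h5 := congrArg (fun y : rootsOfUnity (p ^ k) ℂ => (y : ℂˣ)) (e.injective h4)
      exact h5
    have h4 : F c hc x ^ p ^ (k - 1 + 1) = 1 := by
      rw [Nat.sub_add_cancel hk, ← map_pow]
      change e _ = 1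
      rw [← map_one e]
      congr 1
      apply Subtype.ext
      change d.symm c (x ^ p ^ k) = 1
      rw [map_pow]
      exact h1 c hc x
    have h5 := orderOf_eq_prime_pow h3 h4
    rw [Nat.sub_add_cancel hk] at h5
    have h6 : Nat.card (Multiplicative (ZMod (p ^ k))) = p ^ k := by
      rw [Nat.card_eq_fintype_card, Fintype.card_multiplicative, ZMod.card]
    intro y
    have h7 : y ∈ Subgroup.zpowers (F c hc x) := by
      have h8 : Subgroup.zpowers (F c hc x) = ⊤ := by
        apply Subgroup.eq_top_of_card_eq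
        rw [Nat.card_zpowers, h5, h6]
      rw [h8]
      exact Subgroup.mem_top y
    obtain ⟨n, hn⟩ := h7
    exact ⟨x ^ n, by rw [map_zpow]; exact hn⟩
  refine Nat.card_le_card_of_injective
    (fun c => ⟨F c.1 c.2.1, h2 c.1 c.2.1 c.2.2⟩) ?_
  intro c c' h
  apply Subtype.ext
  apply d.symm.injective
  refine MonoidHom.ext fun x => ?_
  have h3 : F c.1 c.2.1 x = F c'.1 c'.2.1 x :=
    congrArg (fun f => f.1 x) h
  exact congrArg (fun y : rootsOfUnity (p ^ k) ℂ => (y : ℂˣ)) (e.injective h3)

/-- SUR: surjections onto a cyclic group of prime power order. -/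
theorem t_SUR : Pool.Agent.Y215.CT.S_SUR := by
  intro A _ _ p k hp hk
  refine le_trans ?_ (card_le (Subgroup.closure {x : A | ∃ n : ℕ, x ^ p ^ n = 1}) p k hp hk)
  refine Nat.card_le_card_of_injective
    (fun c => ⟨⟨c.1, Subgroup.subset_closure ⟨k, c.2.1⟩⟩, Subtype.ext c.2.1, fun h =>
      c.2.2 (congrArg Subtype.val h)⟩) ?_
  intro c c' h
  apply Subtype.ext
  exact congrArg (fun y => (y.1 : A)) h

end Pool.Agent.Y824.CT
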